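import Mathlib
import Pool.Agent.H94.HI.Fin

/-!
# `ℶ_ω` is characterizable and homogeneously characterizable

`InfLogic.Fm` are the formulas of `L_{ω₁,ω}`, `InfLogic.Ch` the characterizable and
`InfLogic.HomCh` the homogeneously characterizable cardinals.
-/

set_option autoImplicit false

open Cardinal InfLogic

namespace Pool.Agent.Results.MP_faa25e_lc.BethOmegaHomogeneous

/-- `ℶ_ω`, a cardinal of cofinality `ω`, is characterizable and homogeneously characterizable -/
theorem result :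
    (Ch (Cardinal.beth.{0} Ordinal.omega0) ∧ HomCh (Cardinal.beth.{0} Ordinal.omega0) ∧
      (Cardinal.beth.{0} Ordinal.omega0).ord.cof = ℵ₀) ∧
    ¬ ∀ κ : Cardinal.{0}, Ch κ → (¬ HomCh κ ↔ κ.ord.cof = ℵ₀) := by
  obtain ⟨h1, h2, h3⟩ := Pool.Agent.H94.HI.main
  exact ⟨⟨h1, h2, h3⟩, fun h => (h _ h1).2 h3 h2⟩

end Pool.Agent.Results.MP_faa25e_lc.BethOmegaHomogeneous
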